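import Pool.Agent.Q220.EAH.Rate

/-!
# Edwards–Anderson spin glass: random signs with arbitrary magnitudes

The couplings are `J_e = ρ_e s_e` with independent fair signs `s_e` and arbitrary deterministic
magnitudes `ρ_e ∈ [0, 1]`; for instance `ρ_e ∈ {0, 1}`: the symmetric `±1` couplings on an arbitrary
subgraph of `ℤ^d`. Almost surely the Gibbs state is unique for all `β ≤ c/√d`, with an absolute
constant `c`.
(`Coupling`, `couplingLaw` are the definitions of the starting result `UniquenessSqrtDim`, in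
`Pool/Agent/H47R2/EA/Defs.lean`; the model with magnitudes is in `Pool/Agent/Q220/EAH/Defs.lean`.)
-/

set_option autoImplicit false

open MeasureTheory

namespace Pool.Agent.Results.MP_81d17b_pr.ArbitraryMagnitudes

open Pool.H47EA (Site Coupling couplingLaw)
open Pool.Agent.Q220.EAH (Sys IsGibbs)

/-- the couplings `J_e = ρ_e s_e`, without external field -/
def couplings {d : ℕ} (s : Coupling d) (ρ : Sym2 (Site d) → ℝ) (h0 : ∀ e, 0 ≤ ρ e)
    (h1 : ∀ e, ρ e ≤ 1) : Sys d := ⟨s, ρ, 0, h0, h1⟩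

/-- There is an absolute constant `c > 0` such that for every dimension `d ≥ 1`, all magnitudes
`ρ_e ∈ [0, 1]` and almost all independent fair signs `s_e` there is exactly one Gibbs state with the
couplings `J_e = ρ_e s_e` at inverse temperature `β`, for all `β ∈ (0, c/√d]` at once. -/
theorem result :
    ∃ c : ℝ, 0 < c ∧ ∀ d : ℕ, 1 ≤ d → ∀ (ρ : Sym2 (Site d) → ℝ) (h0 : ∀ e, 0 ≤ ρ e)
      (h1 : ∀ e, ρ e ≤ 1), ∀ᵐ s ∂(couplingLaw d), ∀ β : ℝ, 0 < β → β ≤ c / √(d : ℝ) →
        ∃! π : Measure (Site d → Bool), IsGibbs β (couplings s ρ h0 h1) π := by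
  obtain ⟨c, hc, h⟩ := Pool.Agent.Q220.EAH.unique
  refine ⟨c, hc, fun d hd ρ h0 h1 => ?_⟩
  filter_upwards [h d hd ρ h0 h1] with s hs
  exact hs 0

end Pool.Agent.Results.MP_81d17b_pr.ArbitraryMagnitudes
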