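import Pool.Agent.Q220.EAH.Rate

/-!
# Edwards–Anderson spin glass: no phase transition for `β ≤ c / √d` in any external field

Almost surely, for all `β ≤ c/√d` and all external fields `h : ℤ^d → ℝ` at once (arbitrarily large,
and depending on the couplings in an arbitrary way), there is exactly one Gibbs state.
(`Coupling`, `couplingLaw` are the definitions of the starting result `UniquenessSqrtDim`, in
`Pool/Agent/H47R2/EA/Defs.lean`; the model with a field is in `Pool/Agent/Q220/EAH/Defs.lean`.)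
-/

set_option autoImplicit false

open MeasureTheory

namespace Pool.Agent.Results.MP_81d17b_pr.EveryField

open Pool.H47EA (Site Coupling couplingLaw)
open Pool.Agent.Q220.EAH (Sys)

/-- the `±1` couplings `J` with the external field `h`: the energy in `Λ` is
`∑_{⟨x,y⟩ : {x,y} ∩ Λ ≠ ∅} J_{xy} σ_x σ_y + ∑_{x ∈ Λ} h_x σ_x` -/
def withField {d : ℕ} (J : Coupling d) (h : Site d → ℝ) : Sys d :=
  ⟨J, fun _ => 1, h, fun _ => zero_le_one, fun _ => le_rfl⟩

theorem jc_eq {d : ℕ} (J : Coupling d) (h : Site d → ℝ) (x y : Site d) :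
    Pool.Agent.Q220.EAH.Jc (withField J h) x y = Pool.H47EA.Jc J x y := by
  unfold Pool.Agent.Q220.EAH.Jc withField
  simp

theorem ham_eq {d : ℕ} (J : Coupling d) (Λ : Finset (Site d)) (σ : Site d → Bool) :
    Pool.Agent.Q220.EAH.ham (withField J 0) Λ σ = Pool.H47EA.ham J Λ σ := by
  unfold Pool.Agent.Q220.EAH.ham Pool.Agent.Q220.EAH.hamE Pool.H47EA.ham
  have h0 : ∑ x ∈ Λ, (withField J 0).h x * Pool.H47EA.sg (σ x) = 0 :=
    Finset.sum_eq_zero fun x _ => by
      show (0 : ℝ) * _ = 0
      ring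
  rw [h0, add_zero]
  refine Finset.sum_congr rfl fun e _ => ?_
  induction e using Sym2.ind with
  | _ x y =>
    show Pool.Agent.Q220.EAH.Jc (withField J 0) x y * _ * _ = Pool.H47EA.Jc J x y * _ * _
    rw [jc_eq]

/-- There is an absolute constant `c > 0` such that for every dimension `d ≥ 1` and almost every
realisation `J` of the symmetric `±1` couplings there is exactly one Gibbs state with the couplings
`J` and the field `h` at inverse temperature `β`, for all `β ∈ (0, c/√d]` and all fields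
`h : ℤ^d → ℝ` at once. (For `h = 0` these are the Gibbs states of the problem.) -/
theorem result :
    ∃ c : ℝ, 0 < c ∧ ∀ d : ℕ, 1 ≤ d →
      (∀ᵐ J ∂(couplingLaw d), ∀ (h : Site d → ℝ) (β : ℝ), 0 < β → β ≤ c / √(d : ℝ) →
        ∃! π : Measure (Site d → Bool), Pool.Agent.Q220.EAH.IsGibbs β (withField J h) π) ∧
      ∀ (J : Coupling d) (β : ℝ) (π : Measure (Site d → Bool)),
        Pool.Agent.Q220.EAH.IsGibbs β (withField J 0) π ↔ Pool.H47EA.IsGibbs β J π := by
  obtain ⟨c, hc, h⟩ := Pool.Agent.Q220.EAH.unique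
  refine ⟨c, hc, fun d hd => ⟨h d hd _ _ _, fun J β π => ?_⟩⟩
  have hg : ∀ (Λ : Finset (Site d)) (ω : Site d → Bool) (f : (Site d → Bool) → ℝ),
      Pool.Agent.Q220.EAH.gE β (withField J 0) Λ ω f = Pool.H47EA.gE β J Λ ω f := by
    intro Λ ω f
    unfold Pool.Agent.Q220.EAH.gE Pool.H47EA.gE Pool.Agent.Q220.EAH.Zp Pool.H47EA.Zp
    simp only [ham_eq]
  unfold Pool.Agent.Q220.EAH.IsGibbs Pool.H47EA.IsGibbs
  simp only [hg]

end Pool.Agent.Results.MP_81d17b_pr.EveryField
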