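import Pool.Agent.Q220.EA.Fin

/-!
# Edwards–Anderson spin glass: exponential mixing of the Gibbs state for `β ≤ c / √d`

Almost surely, for all `β ≤ c/√d` at once, the unique Gibbs state is exponentially mixing and the
finite-volume measures with arbitrary boundary conditions converge to it exponentially fast, with a
random constant which does not depend on `β` and has a finite mean.
(`Coupling`, `couplingLaw`, `gE`, `IsGibbs` are the definitions of the starting result
`UniquenessSqrtDim`, in `Pool/Agent/H47R2/EA/Defs.lean`.)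
-/

set_option autoImplicit false

open MeasureTheory

namespace Pool.Agent.Results.MP_81d17b_pr.ExponentialMixing

open Pool.H47EA

/-- `x` is in the cube `{-m, ..., m}^d` -/
def InCube {d : ℕ} (m : ℕ) (x : Site d) : Prop := ∀ i, |x i| ≤ (m : ℤ)

/-- the event `F` depends only on the spins in the cube `{-m, ..., m}^d` -/
def Inside {d : ℕ} (m : ℕ) (F : Set (Site d → Bool)) : Prop :=
  ∀ σ σ' : Site d → Bool, (∀ x, InCube m x → σ x = σ' x) → (σ ∈ F ↔ σ' ∈ F)

/-- the event `B` depends only on the spins outside the cube `{-m, ..., m}^d` -/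
def Outside {d : ℕ} (m : ℕ) (B : Set (Site d → Bool)) : Prop :=
  ∀ σ σ' : Site d → Bool, (∀ x, ¬ InCube m x → σ x = σ' x) → (σ ∈ B ↔ σ' ∈ B)

/-- There is an absolute constant `c > 0` such that for every dimension `d ≥ 1` there are random
variables `K_m ≥ 0`, functions of the symmetric `±1` couplings `J` with mean at most
`12 (2m+1)^d`, such that for almost every `J` and all `β ∈ (0, c/√d]` there is exactly one Gibbs
state `π` at `(β, J)`, and for all `m, r` and all events `F` which depend on the spins in the cube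
of radius `m`:
* `|π(F ∩ B) - π(F) π(B)| ≤ K_m(J) e^{-r/(100 d)} π(B)` for all events `B` which depend on the spins
  outside the cube of radius `m + r`;
* `|π^ω_Λ(F) - π(F)| ≤ K_m(J) e^{-r/(100 d)}` for all finite sets `Λ` which contain the cube of
  radius `m + r` and all boundary conditions `ω`. -/
theorem result :
    ∃ c : ℝ, 0 < c ∧ ∀ d : ℕ, 1 ≤ d → ∃ K : ℕ → Coupling d → ℝ,
      (∀ m, Measurable (K m) ∧ (∀ J, 0 ≤ K m J) ∧ Integrable (K m) (couplingLaw d) ∧
        ∫ J, K m J ∂(couplingLaw d) ≤ 12 * (2 * m + 1) ^ d) ∧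
      ∀ᵐ J ∂(couplingLaw d), ∀ β : ℝ, 0 < β → β ≤ c / √(d : ℝ) →
        ∃ π : Measure (Site d → Bool), IsGibbs β J π ∧
          (∀ π' : Measure (Site d → Bool), IsGibbs β J π' → π' = π) ∧
          ∀ (m r : ℕ) (F : Set (Site d → Bool)), MeasurableSet F → Inside m F →
            (∀ B : Set (Site d → Bool), MeasurableSet B → Outside (m + r) B →
              |(π (F ∩ B)).toReal - (π F).toReal * (π B).toReal| ≤
                K m J * Real.exp (-(r : ℝ) / (100 * d)) * (π B).toReal) ∧
            ∀ (Λ : Finset (Site d)) (ω : Site d → Bool), (∀ x, InCube (m + r) x → x ∈ Λ) →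
              |gE β J Λ ω (F.indicator fun _ => (1 : ℝ)) - (π F).toReal| ≤
                K m J * Real.exp (-(r : ℝ) / (100 * d)) := by
  obtain ⟨c, hc, h⟩ := Pool.Agent.Q220.EA.main
  refine ⟨c, hc, fun d hd => ?_⟩
  obtain ⟨K, hK, hJ⟩ := h d hd
  refine ⟨K, hK, ?_⟩
  filter_upwards [hJ] with J hJ β hβ0 hβ
  obtain ⟨π, h1, h2, h3⟩ := hJ β hβ0 hβ
  refine ⟨π, h1, h2, fun m r F hF hFi => ?_⟩
  obtain ⟨h4, h5⟩ := h3 m r F hF (fun σ σ' hσ => hFi σ σ' fun x hx =>
    hσ x (Pool.Agent.Q220.EA.mem_cube.2 hx))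
  refine ⟨fun B hB hBo => h4 B hB (fun σ σ' hσ => hBo σ σ' fun x hx =>
    hσ x (fun hx' => hx (Pool.Agent.Q220.EA.mem_cube.1 hx'))), fun Λ ω hΛ => h5 Λ ω ?_⟩
  intro x hx
  exact hΛ x (Pool.Agent.Q220.EA.mem_cube.1 hx)

end Pool.Agent.Results.MP_81d17b_pr.ExponentialMixing
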