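import Pool.Agent.Q220.EA.Temp2

/-!
# Edwards–Anderson spin glass: the Gibbs state is a `C¹` function of the temperature for
`β < c / √d`

Almost surely, for all `β < c/√d` the probabilities of all local events under the unique Gibbs
state are continuously differentiable functions of `β`; the derivative is the absolutely
convergent sum over all edges of the lattice of `J_e` times the covariance of the event with
`σ_x σ_y`, and it is bounded by a random constant of finite mean which does not depend on `β`.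
(`Coupling`, `couplingLaw`, `IsGibbs` are the definitions of the starting result
`UniquenessSqrtDim`, in `Pool/Agent/H47R2/EA/Defs.lean`.)
-/

set_option autoImplicit false

open MeasureTheory

namespace Pool.Agent.Results.MP_81d17b_pr.SmoothInTemperature

open Pool.H47EA Pool.Agent.Q220.EA

/-- `x` is in the cube `{-m, ..., m}^d` -/
def InCube {d : ℕ} (m : ℕ) (x : Site d) : Prop := ∀ i, |x i| ≤ (m : ℤ)

/-- the event `F` depends only on the spins in the cube `{-m, ..., m}^d` -/
def Inside {d : ℕ} (m : ℕ) (F : Set (Site d → Bool)) : Prop :=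
  ∀ σ σ' : Site d → Bool, (∀ x, InCube m x → σ x = σ' x) → (σ ∈ F ↔ σ' ∈ F)

/-- the spins at the two ends of the edge `e` agree -/
def Agree {d : ℕ} (e : (lat d).edgeSet) : Set (Site d → Bool) :=
  {σ | ∀ x ∈ e.1, ∀ y ∈ e.1, σ x = σ y}

/-- `J_e Cov_π(1_F, σ_x σ_y) = 2 J_e (π(F ∩ {σ_x = σ_y}) - π(F) π(σ_x = σ_y))` for the edge
`e = ⟨x, y⟩` -/
noncomputable def term {d : ℕ} (J : Coupling d) (π : Measure (Site d → Bool))
    (F : Set (Site d → Bool)) (e : (lat d).edgeSet) : ℝ :=
  2 * sg (J e) * ((π (F ∩ Agree e)).toReal - (π F).toReal * (π (Agree e)).toReal)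

theorem agree_eq {d : ℕ} (e : (lat d).edgeSet) : Agree e = Eq2 e.1 := by
  obtain ⟨e, he⟩ := e
  induction e using Sym2.ind with
  | _ x y =>
    ext σ
    rw [mem_Eq2]
    constructor
    · intro h
      exact h x (Sym2.mem_mk_left _ _) y (Sym2.mem_mk_right _ _)
    · intro h u hu v hv
      rcases Sym2.mem_iff.1 hu with rfl | rfl <;> rcases Sym2.mem_iff.1 hv with rfl | rfl
      · rfl
      · exact h
      · exact h.symm
      · rfl

theorem jj_eq {d : ℕ} (J : Coupling d) (e : (lat d).edgeSet) : jj J e.1 = sg (J e) := by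
  obtain ⟨e, he⟩ := e
  induction e using Sym2.ind with
  | _ x y =>
    rw [jj_mk]
    unfold Jc
    have h : (lat d).Adj x y := he
    rw [dif_pos h]

theorem term_eq {d : ℕ} (J : Coupling d) (π : ℝ → Measure (Site d → Bool))
    (F : Set (Site d → Bool)) (β : ℝ) (e : (lat d).edgeSet) :
    term J (π β) F e = covI J π F β e.1 := by
  unfold term covI
  rw [agree_eq, jj_eq]

/-- There is an absolute constant `c > 0` such that for every dimension `d ≥ 1` there are integrable
random variables `K_m ≥ 0`, functions of the symmetric `±1` couplings `J`, such that for almost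
every `J` there is exactly one Gibbs state `π_β` at `(β, J)` for every `β ∈ (0, c/√d)`, and for all
`m` and all events `F` which depend on the spins in the cube of radius `m`, the function
`β ↦ π_β(F)` is continuously differentiable on `(0, c/√d)`, with derivative
`∑_{e = ⟨x,y⟩} J_e Cov_{π_β}(1_F, σ_x σ_y)`, an absolutely convergent sum over all edges of the
lattice, the sum of the absolute values being at most `K_m(J)`; in particular
`|π_β(F) - π_β'(F)| ≤ K_m(J) |β - β'|`. -/
theorem result :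
    ∃ c : ℝ, 0 < c ∧ ∀ d : ℕ, 1 ≤ d → ∃ K : ℕ → Coupling d → ℝ,
      (∀ m, Measurable (K m) ∧ (∀ J, 0 ≤ K m J) ∧ Integrable (K m) (couplingLaw d)) ∧
      ∀ᵐ J ∂(couplingLaw d), ∃ π : ℝ → Measure (Site d → Bool),
        (∀ β ∈ Set.Ioo (0 : ℝ) (c / √(d : ℝ)), IsGibbs β J (π β) ∧
          ∀ π' : Measure (Site d → Bool), IsGibbs β J π' → π' = π β) ∧
        ∀ (m : ℕ) (F : Set (Site d → Bool)), MeasurableSet F → Inside m F →
          (∀ β ∈ Set.Ioo (0 : ℝ) (c / √(d : ℝ)),
            Summable (fun e => |term J (π β) F e|) ∧ ∑' e, |term J (π β) F e| ≤ K m J ∧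
            HasDerivAt (fun b => (π b F).toReal) (∑' e, term J (π β) F e) β) ∧
          ContinuousOn (fun β => ∑' e, term J (π β) F e) (Set.Ioo (0 : ℝ) (c / √(d : ℝ))) ∧
          ∀ β ∈ Set.Ioo (0 : ℝ) (c / √(d : ℝ)), ∀ β' ∈ Set.Ioo (0 : ℝ) (c / √(d : ℝ)),
            |(π β F).toReal - (π β' F).toReal| ≤ K m J * |β - β'| := by
  classical
  obtain ⟨c, hc, h⟩ := Pool.Agent.Q220.EA.main
  refine ⟨c, hc, fun d hd => ?_⟩
  obtain ⟨K, hK, hJ⟩ := h d hd
  have hd' : (0 : ℝ) < 100 * d := by
    have : (1 : ℝ) ≤ d := by exact_mod_cast hd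
    linarith
  set a : ℝ := Real.exp (-1 / (100 * d)) with ha
  have ha0 : 0 < a := Real.exp_pos _
  have ha1 : a < 1 := by
    rw [ha, Real.exp_lt_one_iff]
    exact div_neg_of_neg_of_pos (by norm_num) hd'
  set W : ℕ → ℝ := fun m => ∑' e : Sym2 (Site d), ww a m e with hW
  have hW0 : ∀ m, 0 ≤ W m := fun m => tsum_nonneg fun e => ww_nonneg ha0.le m e
  refine ⟨fun m J => (4 * K m J / a + 2) * W m, fun m => ⟨?_, fun J => ?_, ?_⟩, ?_⟩
  · exact (((measurable_const.mul (hK m).1).div_const a).add measurable_const).mul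
      measurable_const
  · have := (hK m).2.1 J
    have := hW0 m
    positivity
  · exact ((((hK m).2.2.1.const_mul 4).div_const a).add (integrable_const _)).mul_const _
  filter_upwards [hJ] with J hJ
  have hex : ∀ β : ℝ, ∃ π : Measure (Site d → Bool), β ∈ Set.Ioo (0 : ℝ) (c / √(d : ℝ)) →
      IsGibbs β J π ∧ (∀ π' : Measure (Site d → Bool), IsGibbs β J π' → π' = π) ∧
      ∀ (m r : ℕ) (F : Set (Site d → Bool)), MeasurableSet F →
        (∀ σ σ' : Site d → Bool, (∀ x ∈ cube d m, σ x = σ' x) → (σ ∈ F ↔ σ' ∈ F)) →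
        ∀ (Λ : Finset (Site d)) (ω : Site d → Bool), cube d (m + r) ⊆ Λ →
          |gE β J Λ ω (F.indicator fun _ => (1 : ℝ)) - (π F).toReal| ≤
            K m J * Real.exp (-(r : ℝ) / (100 * d)) := by
    intro β
    by_cases hβ : β ∈ Set.Ioo (0 : ℝ) (c / √(d : ℝ))
    · obtain ⟨π, h1, h2, h3⟩ := hJ β hβ.1 hβ.2.le
      exact ⟨π, fun _ => ⟨h1, h2, fun m r F hF hFl => (h3 m r F hF hFl).2⟩⟩
    · exact ⟨Measure.dirac fun _ => true, fun h => absurd h hβ⟩
  choose π hπ using hex
  refine ⟨π, fun β hβ => ⟨(hπ β hβ).1, (hπ β hβ).2.1⟩, fun m F hF hFi => ?_⟩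
  have hFl : ∀ σ σ' : Site d → Bool, (∀ x ∈ cube d m, σ x = σ' x) → (σ ∈ F ↔ σ' ∈ F) :=
    fun σ σ' hσ => hFi σ σ' fun x hx => hσ x (mem_cube.2 hx)
  have hcv : Conv J (Set.Ioo (0 : ℝ) (c / √(d : ℝ))) π (fun m => K m J) a := by
    intro β hβ m r F hF hFl Λ ω hΛ
    have := (hπ β hβ).2.2 m r F hF hFl Λ ω hΛ
    rwa [exp_pow] at this
  have hpr : ∀ β ∈ Set.Ioo (0 : ℝ) (c / √(d : ℝ)), IsProbabilityMeasure (π β) :=
    fun β hβ => (hπ β hβ).1.1
  have hK0 : ∀ m, 0 ≤ K m J := fun m => (hK m).2.1 J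
  have hsupp : ∀ (g : Sym2 (Site d) → ℝ), (∀ e, e ∉ (lat d).edgeSet → g e = 0) →
      Function.support g ⊆ (lat d).edgeSet := by
    intro g hg e he
    by_contra hcon
    exact he (hg e hcon)
  have hz : ∀ β e, e ∉ (lat d).edgeSet → covI J π F β e = 0 := by
    intro β e he
    unfold covI
    rw [jj_zero J e he]
    ring
  have e1 : ∀ β, ∑' e, term J (π β) F e = ∑' e, covI J π F β e := by
    intro β
    rw [← tsum_subtype_eq_of_support_subset (hsupp _ (hz β))]
    exact tsum_congr fun e => term_eq J π F β e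
  have e2 : ∀ β, ∑' e, |term J (π β) F e| = ∑' e, |covI J π F β e| := by
    intro β
    rw [← tsum_subtype_eq_of_support_subset (hsupp (fun e => |covI J π F β e|) fun e he => by
      rw [hz β e he, abs_zero])]
    exact tsum_congr fun e => by rw [term_eq J π F β e]
  have hder : ∀ β ∈ Set.Ioo (0 : ℝ) (c / √(d : ℝ)),
      Summable (fun e => |term J (π β) F e|) ∧
        ∑' e, |term J (π β) F e| ≤ (4 * K m J / a + 2) * W m ∧
      HasDerivAt (fun b => (π b F).toReal) (∑' e, term J (π β) F e) β := by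
    intro β hβ
    obtain ⟨h1, h2⟩ := deriv_bound ha0 ha1 hK0 hcv hpr hF hFl hβ
    refine ⟨?_, by rw [e2]; exact h2, ?_⟩
    · have := h1.comp_injective (Subtype.val_injective (p := fun e => e ∈ (lat d).edgeSet))
      refine this.congr fun e => ?_
      show |covI J π F β e.1| = |term J (π β) F e|
      rw [term_eq J π F β e]
    · rw [e1]
      exact deriv_inf ha0 ha1 hK0 hcv hpr hF hFl isOpen_Ioo hβ
  refine ⟨hder, ?_, ?_⟩
  · have := deriv_cont ha0 ha1 hK0 hcv hpr hF hFl
    refine this.congr fun β _ => e1 β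
  · intro β hβ β' hβ'
    have hbd : ∀ b ∈ Set.Ioo (0 : ℝ) (c / √(d : ℝ)),
        ‖∑' e, term J (π b) F e‖ ≤ (4 * K m J / a + 2) * W m := by
      intro b hb
      obtain ⟨h1, h2, -⟩ := hder b hb
      refine (norm_tsum_le_tsum_norm ?_).trans ?_
      · simpa [Real.norm_eq_abs] using h1
      · simpa [Real.norm_eq_abs] using h2
    have := (convex_Ioo (0 : ℝ) (c / √(d : ℝ))).norm_image_sub_le_of_norm_hasDerivWithin_le
      (f := fun b => (π b F).toReal) (f' := fun b => ∑' e, term J (π b) F e)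
      (fun b hb => (hder b hb).2.2.hasDerivWithinAt) hbd hβ' hβ
    simpa [Real.norm_eq_abs] using this

end Pool.Agent.Results.MP_81d17b_pr.SmoothInTemperature
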